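import Pool.Agent.W96.CL.Stm
set_option autoImplicit false

/-!
# CL-CMP: comparison of the two source terms
-/

open Polynomial Filter Topology MeasureTheory

namespace W96CL

namespace Cmp612

/-! ## elementary inequalities -/

lemma arctan_le' {x : ℝ} (hx : 0 ≤ x) : Real.arctan x ≤ x := by
  have h1 : Real.arctan x < Real.pi / 2 := Real.arctan_lt_pi_div_two x
  have h2 : 0 ≤ Real.arctan x := Real.arctan_nonneg.mpr hx
  have h3 := Real.le_tan h2 h1
  rwa [Real.tan_arctan] at h3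

lemma le_arctan' {x : ℝ} (hx : 0 ≤ x) : x - x ^ 3 ≤ Real.arctan x := by
  have h2 : 0 ≤ Real.arctan x := Real.arctan_nonneg.mpr hx
  have h3 := Real.sin_le h2
  rw [Real.sin_arctan] at h3
  refine le_trans ?_ h3
  have hs : 0 < Real.sqrt (1 + x ^ 2) := Real.sqrt_pos.mpr (by positivity)
  rw [le_div_iff₀ hs]
  have hle : Real.sqrt (1 + x ^ 2) ≤ 1 + x ^ 2 := by
    rw [Real.sqrt_le_left (by positivity)]
    nlinarith [sq_nonneg x]
  have hs1 : 1 ≤ Real.sqrt (1 + x ^ 2) := by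
    rw [Real.one_le_sqrt]; nlinarith [sq_nonneg x]
  by_cases h : x ≤ 1
  · have h4 : 0 ≤ x - x ^ 3 := by
      have : x ^ 3 = x * x ^ 2 := by ring
      nlinarith [mul_nonneg hx (mul_nonneg (sub_nonneg.mpr h) (by linarith : (0:ℝ) ≤ 1 + x))]
    calc (x - x ^ 3) * Real.sqrt (1 + x ^ 2) ≤ (x - x ^ 3) * (1 + x ^ 2) :=
          mul_le_mul_of_nonneg_left hle h4
      _ = x - x ^ 5 := by ring
      _ ≤ x := by
        have : 0 ≤ x ^ 5 := by positivity
        linarith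
  · push Not at h
    have h4 : x - x ^ 3 ≤ 0 := by
      nlinarith [mul_nonneg hx (mul_nonneg (sub_nonneg.mpr h.le) (by linarith : (0:ℝ) ≤ 1 + x))]
    have h5 : (x - x ^ 3) * Real.sqrt (1 + x ^ 2) ≤ 0 :=
      mul_nonpos_of_nonpos_of_nonneg h4 hs.le
    linarith

/-- the logarithm of the quotient -/
lemma log_bd {y : ℝ} (hy : 0 ≤ y) (hy1 : y < 1) :
    |Real.log ((1 + y) / (1 - y)) - 2 * y| ≤ y ^ 2 / (1 - y) := by
  have h1 : 0 < 1 - y := by linarith
  have h2 : 0 < 1 + y := by linarith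
  rw [Real.log_div h2.ne' h1.ne']
  have a1 : Real.log (1 + y) ≤ y := by
    have := Real.log_le_sub_one_of_pos h2; linarith
  have a2 : y / (1 + y) ≤ Real.log (1 + y) := by
    have := Real.one_sub_inv_le_log_of_pos h2
    have e : 1 - (1 + y)⁻¹ = y / (1 + y) := by field_simp; ring
    linarith
  have b1 : Real.log (1 - y) ≤ -y := by
    have := Real.log_le_sub_one_of_pos h1; linarith
  have b2 : -(y / (1 - y)) ≤ Real.log (1 - y) := by
    have := Real.one_sub_inv_le_log_of_pos h1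
    have e : 1 - (1 - y)⁻¹ = -(y / (1 - y)) := by field_simp; ring
    linarith
  have e1 : y / (1 + y) = y - y ^ 2 / (1 + y) := by field_simp; ring
  have e2 : y / (1 - y) = y + y ^ 2 / (1 - y) := by field_simp; ring
  have e3 : y ^ 2 / (1 + y) ≤ y ^ 2 / (1 - y) := by
    apply div_le_div_of_nonneg_left (by positivity) h1 (by linarith)
  rw [abs_le]
  constructor
  · rw [e1] at a2; linarith
  · rw [e2] at b2; linarith

/-! ## part A -/

lemma partA (C S : ℝ) (x : ℕ → ℝ) (hC : 0 < C) (hS : 0 < S) (hS1 : S < 1)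
    (hx : ∀ n : ℕ, ((n : ℝ) + 1) * C ≤ Real.sinh (x n)) :
    Tendsto (fun n : ℕ => 4 * Real.pi * ((n : ℝ) + 1) * Real.arctan (C / Real.sinh (x n)) -
      2 * Real.pi * C / S * (((n : ℝ) + 1) * Real.log ((Real.cosh (x n) + S) /
        (Real.cosh (x n) - S)))) atTop (𝓝 0) := by
  have hlim : Tendsto (fun n : ℕ => (4 * Real.pi + 4 * Real.pi / C +
      2 * Real.pi * C / S * (S ^ 2 / (1 - S) / C ^ 2)) * (1 / ((n : ℝ) + 1))) atTop (𝓝 0) := by
    have h := (tendsto_one_div_add_atTop_nhds_zero_nat (𝕜 := ℝ)).const_mul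
      (4 * Real.pi + 4 * Real.pi / C + 2 * Real.pi * C / S * (S ^ 2 / (1 - S) / C ^ 2))
    rwa [mul_zero] at h
  refine squeeze_zero_norm (fun n => ?_) hlim
  rw [Real.norm_eq_abs]
  have hN : (1 : ℝ) ≤ (n : ℝ) + 1 := by
    have : (0 : ℝ) ≤ n := Nat.cast_nonneg n
    linarith
  have hxn := hx n
  have hsq : Real.cosh (x n) ^ 2 = Real.sinh (x n) ^ 2 + 1 := Real.cosh_sq (x n)
  have hc0 : 0 < Real.cosh (x n) := Real.cosh_pos (x n)
  generalize ((n : ℝ) + 1) = N at hN hxn ⊢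
  generalize Real.sinh (x n) = sh at hxn hsq ⊢
  generalize Real.cosh (x n) = ch at hsq hc0 ⊢
  have hN0 : 0 < N := by linarith
  have hNC : 0 < N * C := mul_pos hN0 hC
  have hsh : 0 < sh := lt_of_lt_of_le hNC hxn
  have hch1 : 1 ≤ ch := by nlinarith [sq_nonneg sh]
  have hchsh : sh < ch := by nlinarith
  have hdiff : ch - sh ≤ 1 := by
    have h1 : (ch - sh) * (ch + sh) = 1 := by nlinarith
    nlinarith
  have hchS : 0 < ch - S := by linarith
  obtain ⟨v, hv⟩ : ∃ v, v = C / sh := ⟨_, rfl⟩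
  obtain ⟨y, hy⟩ : ∃ y, y = S / ch := ⟨_, rfl⟩
  have hy0 : 0 < y := by rw [hy]; positivity
  have hyS : y ≤ S := by rw [hy]; exact div_le_self hS.le hch1
  have hy1 : y < 1 := lt_of_le_of_lt hyS hS1
  have hv0 : 0 < v := by rw [hv]; positivity
  have hvN : v ≤ 1 / N := by
    rw [hv, div_le_div_iff₀ hsh hN0]; linarith
  have hL : (ch + S) / (ch - S) = (1 + y) / (1 - y) := by
    rw [hy]
    have : ch - S ≠ 0 := hchS.ne'
    have h2 : 1 - S / ch ≠ 0 := by rw [← hy]; linarith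
    rw [div_eq_div_iff this h2]
    field_simp
  have hlog := log_bd hy0.le hy1
  rw [← hL] at hlog
  have hat1 := arctan_le' hv0.le
  have hat2 := le_arctan' hv0.le
  rw [← hv]
  generalize Real.log ((ch + S) / (ch - S)) = L at hlog ⊢
  generalize Real.arctan v = a at hat1 hat2 ⊢
  have hsplit : 4 * Real.pi * N * a - 2 * Real.pi * C / S * (N * L) =
      4 * Real.pi * (N * (a - v)) + 4 * Real.pi * (N * C * (1 / sh - 1 / ch)) -
        2 * Real.pi * C / S * (N * (L - 2 * y)) := by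
    rw [hv, hy]
    field_simp
    ring
  have hpi := Real.pi_pos
  have t1 : |4 * Real.pi * (N * (a - v))| ≤ 4 * Real.pi * (1 / N) := by
    rw [abs_mul, abs_of_pos (by positivity : 0 < 4 * Real.pi)]
    apply mul_le_mul_of_nonneg_left _ (by positivity)
    rw [abs_mul, abs_of_pos hN0]
    have h1 : |a - v| ≤ v ^ 3 := by rw [abs_le]; constructor <;> nlinarith [pow_pos hv0 3]
    calc N * |a - v| ≤ N * v ^ 3 := mul_le_mul_of_nonneg_left h1 hN0.le
      _ ≤ N * (1 / N) ^ 3 :=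
        mul_le_mul_of_nonneg_left (pow_le_pow_left₀ hv0.le hvN 3) hN0.le
      _ = 1 / N * (1 / N) := by field_simp
      _ ≤ 1 / N * 1 := by
        apply mul_le_mul_of_nonneg_left _ (by positivity)
        rw [div_le_one hN0]; exact hN
      _ = 1 / N := mul_one _
  have t2 : |4 * Real.pi * (N * C * (1 / sh - 1 / ch))| ≤ 4 * Real.pi / C * (1 / N) := by
    have h0 : 0 ≤ 1 / sh - 1 / ch := by
      have := one_div_le_one_div_of_le hsh hchsh.le
      linarith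
    rw [abs_of_nonneg (by positivity)]
    have h1 : 1 / sh - 1 / ch ≤ 1 / (N * C) ^ 2 := by
      have e : 1 / sh - 1 / ch = (ch - sh) / (sh * ch) := by field_simp
      rw [e]
      apply div_le_div₀ (by norm_num) hdiff (by positivity)
      rw [pow_two]
      exact mul_le_mul hxn (hxn.trans hchsh.le) hNC.le hsh.le
    calc 4 * Real.pi * (N * C * (1 / sh - 1 / ch)) ≤ 4 * Real.pi * (N * C * (1 / (N * C) ^ 2)) := by
          apply mul_le_mul_of_nonneg_left _ (by positivity)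
          exact mul_le_mul_of_nonneg_left h1 hNC.le
      _ = 4 * Real.pi / C * (1 / N) := by field_simp
  have t3 : |2 * Real.pi * C / S * (N * (L - 2 * y))| ≤
      2 * Real.pi * C / S * (S ^ 2 / (1 - S) / C ^ 2 * (1 / N)) := by
    have h1S : 0 < 1 - S := by linarith
    rw [abs_mul, abs_of_pos (by positivity : 0 < 2 * Real.pi * C / S)]
    apply mul_le_mul_of_nonneg_left _ (by positivity)
    rw [abs_mul, abs_of_pos hN0]
    have h2 : y ^ 2 / (1 - y) ≤ (S ^ 2 / (N * C) ^ 2) / (1 - S) := by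
      apply div_le_div₀ (by positivity) _ h1S (by linarith)
      rw [hy, div_pow]
      apply div_le_div_of_nonneg_left (by positivity) (by positivity)
      exact pow_le_pow_left₀ hNC.le (hxn.trans hchsh.le) 2
    calc N * |L - 2 * y| ≤ N * ((S ^ 2 / (N * C) ^ 2) / (1 - S)) :=
          mul_le_mul_of_nonneg_left (hlog.trans h2) hN0.le
      _ = S ^ 2 / (1 - S) / C ^ 2 * (1 / N) := by field_simp
  rw [hsplit]
  calc |4 * Real.pi * (N * (a - v)) + 4 * Real.pi * (N * C * (1 / sh - 1 / ch)) -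
        2 * Real.pi * C / S * (N * (L - 2 * y))|
      ≤ |4 * Real.pi * (N * (a - v))| + |4 * Real.pi * (N * C * (1 / sh - 1 / ch))| +
        |2 * Real.pi * C / S * (N * (L - 2 * y))| := by
        refine (abs_sub _ _).trans ?_
        gcongr
        exact abs_add_le _ _
    _ ≤ _ := by
        have := add_le_add (add_le_add t1 t2) t3
        refine this.trans (le_of_eq ?_)
        ring

/-! ## part B -/

lemma partB (C : ℝ) (x : ℕ → ℝ) (hC : 0 < C)
    (hx : ∀ n : ℕ, ((n : ℝ) + 1) * C ≤ Real.sinh (x n)) :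
    Tendsto (fun n : ℕ => 2 * Real.pi * Real.arccos (Real.tanh (x n))) atTop (𝓝 0) := by
  have ht : Tendsto (fun n : ℕ => Real.tanh (x n)) atTop (𝓝 1) := by
    have hlim : Tendsto (fun n : ℕ => (1 / C) * (1 / ((n : ℝ) + 1))) atTop (𝓝 0) := by
      have h := (tendsto_one_div_add_atTop_nhds_zero_nat (𝕜 := ℝ)).const_mul (1 / C)
      rwa [mul_zero] at h
    have h2 : Tendsto (fun n : ℕ => Real.tanh (x n) - 1) atTop (𝓝 0) := by
      refine squeeze_zero_norm (fun n => ?_) hlim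
      rw [Real.norm_eq_abs, Real.tanh_eq_sinh_div_cosh]
      have hN : (1 : ℝ) ≤ (n : ℝ) + 1 := by
        have : (0 : ℝ) ≤ n := Nat.cast_nonneg n
        linarith
      have hxn := hx n
      have hsq : Real.cosh (x n) ^ 2 = Real.sinh (x n) ^ 2 + 1 := Real.cosh_sq (x n)
      have hc0 : 0 < Real.cosh (x n) := Real.cosh_pos (x n)
      generalize ((n : ℝ) + 1) = N at hN hxn ⊢
      generalize Real.sinh (x n) = sh at hxn hsq ⊢
      generalize Real.cosh (x n) = ch at hsq hc0 ⊢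
      have hN0 : 0 < N := by linarith
      have hNC : 0 < N * C := mul_pos hN0 hC
      have hsh : 0 < sh := lt_of_lt_of_le hNC hxn
      have hch1 : 1 ≤ ch := by nlinarith [sq_nonneg sh]
      have hchsh : sh < ch := by nlinarith
      have hdiff : ch - sh ≤ 1 := by
        have h1 : (ch - sh) * (ch + sh) = 1 := by nlinarith
        nlinarith
      have e : sh / ch - 1 = -((ch - sh) / ch) := by field_simp; ring
      rw [e, abs_neg, abs_of_nonneg (by apply div_nonneg _ hc0.le; linarith)]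
      calc (ch - sh) / ch ≤ 1 / (N * C) := by
            apply div_le_div₀ (by norm_num) hdiff hNC (hxn.trans hchsh.le)
        _ = 1 / C * (1 / N) := by field_simp
    have h3 := h2.add_const 1
    simpa using h3
  have h4 := (Real.continuous_arccos.tendsto 1).comp ht
  rw [Real.arccos_one] at h4
  have h5 := h4.const_mul (2 * Real.pi)
  rw [mul_zero] at h5
  exact h5

/-! ## part C -/

lemma Rr_pos {θ : ℝ} (hC1 : Real.cos (3 * θ / 2) < 1) (hC : 0 < Real.cos (3 * θ / 2)) (u : ℝ) :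
    0 < Rr θ u := by
  unfold Rr
  have := Real.one_le_cosh (3 * u / 2)
  apply div_pos <;> linarith

lemma Rr_lt {θ : ℝ} (hC : 0 < Real.cos (3 * θ / 2)) (u : ℝ) : Rr θ u < 1 := by
  unfold Rr
  have := Real.one_le_cosh (3 * u / 2)
  rw [div_lt_one (by linarith)]
  linarith

lemma Rr_pow {θ : ℝ} (hC1 : Real.cos (3 * θ / 2) < 1) (hC : 0 < Real.cos (3 * θ / 2)) (u : ℝ)
    (n : ℕ) : ((n : ℝ) + 1) * (Rr θ u) ^ (2 * (n + 1)) ≤
      Real.cosh (3 * u / 2) / (4 * Real.cos (3 * θ / 2)) := by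
  have hpos := Rr_pos hC1 hC u
  have hc1 := Real.one_le_cosh (3 * u / 2)
  unfold Rr at hpos ⊢
  generalize Real.cosh (3 * u / 2) = c at hpos hc1 ⊢
  generalize Real.cos (3 * θ / 2) = C at hC1 hC hpos ⊢
  have hc0 : 0 < c := by linarith
  have hR : (c - C) / (c + C) ≤ 1 / (1 + 2 * C / c) := by
    have e : 1 / (1 + 2 * C / c) = c / (c + 2 * C) := by field_simp
    rw [e, div_le_div_iff₀ (by linarith) (by linarith)]
    nlinarith [sq_nonneg C]
  have hB := one_add_mul_le_pow (a := 2 * C / c) (by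
    have : 0 < 2 * C / c := by positivity
    linarith) (2 * (n + 1))
  have hpow : ((c - C) / (c + C)) ^ (2 * (n + 1)) ≤ 1 / (1 + 2 * C / c) ^ (2 * (n + 1)) := by
    rw [← one_div_pow]
    exact pow_le_pow_left₀ hpos.le hR _
  have hN : (0 : ℝ) < (n : ℝ) + 1 := by positivity
  have h2 : 1 / (1 + 2 * C / c) ^ (2 * (n + 1)) ≤ 1 / (4 * ((n : ℝ) + 1) * C / c) := by
    apply one_div_le_one_div_of_le (by positivity)
    refine le_trans ?_ hB
    push_cast
    have e : 2 * ((n : ℝ) + 1) * (2 * C / c) = 4 * ((n : ℝ) + 1) * C / c := by ring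
    rw [e]
    linarith
  calc ((n : ℝ) + 1) * ((c - C) / (c + C)) ^ (2 * (n + 1))
      ≤ ((n : ℝ) + 1) * (1 / (4 * ((n : ℝ) + 1) * C / c)) :=
        mul_le_mul_of_nonneg_left (hpow.trans h2) hN.le
    _ = c / (4 * C) := by field_simp

lemma tanh_sq_le (a : ℝ) : Real.tanh a ^ 2 ≤ 1 := by
  have h1 : 0 < Real.cosh a := Real.cosh_pos a
  rw [Real.tanh_eq_sinh_div_cosh, div_pow, div_le_one (by positivity)]
  have := Real.cosh_sq a
  linarith

lemma exp_le_cosh (x : ℝ) : Real.exp x / 2 ≤ Real.cosh x := by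
  rw [Real.cosh_eq]
  have := Real.exp_pos (-x)
  linarith

lemma inv_cosh_le (x : ℝ) : 1 / Real.cosh x ≤ 2 * Real.exp (-x) := by
  have h1 := exp_le_cosh x
  have h2 := Real.exp_pos x
  rw [Real.exp_neg]
  calc 1 / Real.cosh x ≤ 1 / (Real.exp x / 2) := one_div_le_one_div_of_le (by linarith) h1
    _ = 2 * (Real.exp x)⁻¹ := by field_simp

lemma den_ge (S x : ℝ) (hS1 : S ^ 2 ≤ 1) :
    S ^ 2 * Real.cosh x ^ 2 ≤ Real.sinh x ^ 2 + S ^ 2 := by
  rw [Real.cosh_sq x]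
  nlinarith [sq_nonneg (Real.sinh x)]

/-- the bound of the first quotient -/
lemma tanh_div (u : ℝ) (hu : 0 < u) :
    Real.tanh (3 * u / 4) ^ 2 / Real.sinh (3 * u / 2) ≤ 2 * Real.exp (-(3 * u / 2)) := by
  have ha : 0 < 3 * u / 4 := by linarith
  have e1 : 3 * u / 2 = 2 * (3 * u / 4) := by ring
  rw [e1]
  generalize 3 * u / 4 = a at ha ⊢
  have hs : 0 < Real.sinh a := Real.sinh_pos_iff.mpr ha
  have hc : 0 < Real.cosh a := Real.cosh_pos a
  have hsc : Real.sinh a < Real.cosh a := Real.sinh_lt_cosh a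
  rw [Real.sinh_two_mul, Real.tanh_eq_sinh_div_cosh, div_pow]
  have e2 : Real.sinh a ^ 2 / Real.cosh a ^ 2 / (2 * Real.sinh a * Real.cosh a) =
      Real.sinh a / Real.cosh a * (1 / Real.cosh a) ^ 2 / 2 := by field_simp
  rw [e2]
  have h1 : Real.sinh a / Real.cosh a ≤ 1 := by rw [div_le_one hc]; exact hsc.le
  have h2 : (1 / Real.cosh a) ^ 2 ≤ (2 * Real.exp (-a)) ^ 2 :=
    pow_le_pow_left₀ (by positivity) (inv_cosh_le a) 2
  have h3 : (2 * Real.exp (-a)) ^ 2 = 4 * Real.exp (-(2 * a)) := by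
    rw [mul_pow, ← Real.exp_nat_mul]
    norm_num
  rw [h3] at h2
  have h4 : Real.sinh a / Real.cosh a * (1 / Real.cosh a) ^ 2 ≤ 1 * (4 * Real.exp (-(2 * a))) :=
    mul_le_mul h1 h2 (by positivity) (by norm_num)
  linarith

lemma int_exp : IntegrableOn (fun u : ℝ => Real.exp (-(3 * u / 2))) (Set.Ioi 0) := by
  have h := exp_neg_integrableOn_Ioi 0 (b := 3 / 2) (by norm_num)
  refine h.congr_fun (fun u _ => ?_) measurableSet_Ioi
  show Real.exp (-(3 / 2) * u) = _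
  congr 1
  ring

section core

variable {θ S : ℝ} {h : ℕ → ℝ → ℝ}

/-- the pieces -/
noncomputable def Gp (h : ℝ → ℝ) (u : ℝ) : ℝ := 3 / 2 / Real.sinh (3 * u / 2) * h u

noncomputable def Pp (k S : ℝ) (h : ℝ → ℝ) (u : ℝ) : ℝ :=
  k * (Real.cosh (3 * u / 2) / (Real.sinh (3 * u / 2) ^ 2 + S ^ 2) * h u)

noncomputable def Qp (k S : ℝ) (h : ℝ → ℝ) (u : ℝ) : ℝ :=
  k * (Real.sinh (3 * u / 2) / (Real.sinh (3 * u / 2) ^ 2 + S ^ 2) * h u)

lemma Gp_bd (h : ℝ → ℝ) (R : ℝ → ℝ) (u : ℝ) (hu : 0 < u) (h0 : 0 ≤ h u) (hR0 : 0 ≤ R u)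
    (hb : h u ≤ 3 * (Real.tanh (3 * u / 4) ^ 2 * R u)) :
    |Gp h u| ≤ 9 * Real.exp (-(3 * u / 2)) * R u := by
  have hs : 0 < Real.sinh (3 * u / 2) := Real.sinh_pos_iff.mpr (by linarith)
  unfold Gp
  rw [abs_of_nonneg (by positivity)]
  calc 3 / 2 / Real.sinh (3 * u / 2) * h u
      ≤ 3 / 2 / Real.sinh (3 * u / 2) * (3 * (Real.tanh (3 * u / 4) ^ 2 * R u)) :=
        mul_le_mul_of_nonneg_left hb (by positivity)
    _ = 9 / 2 * (Real.tanh (3 * u / 4) ^ 2 / Real.sinh (3 * u / 2)) * R u := by field_simp; ring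
    _ ≤ 9 / 2 * (2 * Real.exp (-(3 * u / 2))) * R u := by
        apply mul_le_mul_of_nonneg_right _ hR0
        apply mul_le_mul_of_nonneg_left (tanh_div u hu) (by norm_num)
    _ = 9 * Real.exp (-(3 * u / 2)) * R u := by ring

lemma Pp_bd (k S : ℝ) (h : ℝ → ℝ) (u : ℝ) (hk : 0 ≤ k) (hS : 0 < S) (hS1 : S ≤ 1)
    (h0 : 0 ≤ h u) (hb : h u ≤ 3) :
    |Pp k S h u| ≤ 6 * k / S ^ 2 * Real.exp (-(3 * u / 2)) := by
  unfold Pp
  have hc : 0 < Real.cosh (3 * u / 2) := Real.cosh_pos _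
  have hd := den_ge S (3 * u / 2) (by nlinarith)
  have hd0 : 0 < Real.sinh (3 * u / 2) ^ 2 + S ^ 2 := by positivity
  rw [abs_of_nonneg (by positivity)]
  have h1 : Real.cosh (3 * u / 2) / (Real.sinh (3 * u / 2) ^ 2 + S ^ 2) ≤
      1 / S ^ 2 * (2 * Real.exp (-(3 * u / 2))) := by
    calc Real.cosh (3 * u / 2) / (Real.sinh (3 * u / 2) ^ 2 + S ^ 2)
        ≤ Real.cosh (3 * u / 2) / (S ^ 2 * Real.cosh (3 * u / 2) ^ 2) :=
          div_le_div_of_nonneg_left hc.le (by positivity) hd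
      _ = 1 / S ^ 2 * (1 / Real.cosh (3 * u / 2)) := by field_simp
      _ ≤ _ := mul_le_mul_of_nonneg_left (inv_cosh_le _) (by positivity)
  calc k * (Real.cosh (3 * u / 2) / (Real.sinh (3 * u / 2) ^ 2 + S ^ 2) * h u)
      ≤ k * (1 / S ^ 2 * (2 * Real.exp (-(3 * u / 2))) * 3) := by
        apply mul_le_mul_of_nonneg_left _ hk
        exact mul_le_mul h1 hb h0 (by positivity)
    _ = _ := by ring

lemma Qp_bd (k S : ℝ) (h : ℝ → ℝ) (u : ℝ) (hu : 0 < u) (hk : 0 ≤ k) (hS : 0 < S) (hS1 : S ≤ 1)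
    (h0 : 0 ≤ h u) (hb : h u ≤ 3) :
    |Qp k S h u| ≤ 6 * k / S ^ 2 * Real.exp (-(3 * u / 2)) := by
  refine le_trans ?_ (Pp_bd k S h u hk hS hS1 h0 hb)
  unfold Qp Pp
  have hc : 0 < Real.cosh (3 * u / 2) := Real.cosh_pos _
  have hs : 0 < Real.sinh (3 * u / 2) := Real.sinh_pos_iff.mpr (by linarith)
  have hd0 : 0 < Real.sinh (3 * u / 2) ^ 2 + S ^ 2 := by positivity
  rw [abs_of_nonneg (by positivity), abs_of_nonneg (by positivity)]
  apply mul_le_mul_of_nonneg_left _ hk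
  apply mul_le_mul_of_nonneg_right _ h0
  exact div_le_div_of_nonneg_right (Real.sinh_lt_cosh _).le hd0.le

lemma Fp_bd (k S : ℝ) (h : ℝ → ℝ) (R : ℝ → ℝ) (u : ℝ) (hk : 0 ≤ k) (hS : 0 < S)
    (hS1 : S ≤ 1) (h0 : 0 ≤ h u) (hR0 : 0 ≤ R u)
    (hb : h u ≤ 3 * (Real.tanh (3 * u / 4) ^ 2 * R u)) :
    |Pp k S h u - Qp k S h u| ≤
      3 / S ^ 2 * (k * R u) * (1 / Real.cosh (3 * u / 2)) ^ 2 * Real.exp (-(3 * u / 2)) := by
  unfold Qp Pp
  have hc : 0 < Real.cosh (3 * u / 2) := Real.cosh_pos _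
  have hd := den_ge S (3 * u / 2) (by nlinarith)
  have hd0 : 0 < Real.sinh (3 * u / 2) ^ 2 + S ^ 2 := by positivity
  have e : k * (Real.cosh (3 * u / 2) / (Real.sinh (3 * u / 2) ^ 2 + S ^ 2) * h u) -
      k * (Real.sinh (3 * u / 2) / (Real.sinh (3 * u / 2) ^ 2 + S ^ 2) * h u) =
      k * (Real.exp (-(3 * u / 2)) / (Real.sinh (3 * u / 2) ^ 2 + S ^ 2) * h u) := by
    rw [← Real.cosh_sub_sinh]
    ring
  rw [e, abs_of_nonneg (by positivity)]
  have hb2 : h u ≤ 3 * R u := by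
    refine hb.trans ?_
    have := tanh_sq_le (3 * u / 4)
    nlinarith
  calc k * (Real.exp (-(3 * u / 2)) / (Real.sinh (3 * u / 2) ^ 2 + S ^ 2) * h u)
      ≤ k * (Real.exp (-(3 * u / 2)) / (S ^ 2 * Real.cosh (3 * u / 2) ^ 2) * (3 * R u)) := by
        apply mul_le_mul_of_nonneg_left _ hk
        apply mul_le_mul _ hb2 h0 (by positivity)
        exact div_le_div_of_nonneg_left (Real.exp_pos _).le (by positivity) hd
    _ = _ := by field_simp

lemma Gp_meas (h : ℝ → ℝ) (hc : Continuous h) (μ : Measure ℝ) : AEStronglyMeasurable (Gp h) μ := by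
  apply Measurable.aestronglyMeasurable
  unfold Gp
  have := hc.measurable
  fun_prop

lemma Pp_meas (k S : ℝ) (h : ℝ → ℝ) (hc : Continuous h) (μ : Measure ℝ) :
    AEStronglyMeasurable (Pp k S h) μ := by
  apply Measurable.aestronglyMeasurable
  unfold Pp
  have := hc.measurable
  fun_prop

lemma Qp_meas (k S : ℝ) (h : ℝ → ℝ) (hc : Continuous h) (μ : Measure ℝ) :
    AEStronglyMeasurable (Qp k S h) μ := by
  apply Measurable.aestronglyMeasurable
  unfold Qp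
  have := hc.measurable
  fun_prop

lemma Gp_int (h : ℝ → ℝ) (hc : Continuous h) (R : ℝ → ℝ) (h0 : ∀ u, 0 ≤ h u)
    (hR0 : ∀ u, 0 ≤ R u) (hR1 : ∀ u, R u ≤ 1)
    (hb : ∀ u, 0 < u → h u ≤ 3 * (Real.tanh (3 * u / 4) ^ 2 * R u)) :
    IntegrableOn (Gp h) (Set.Ioi 0) := by
  refine Integrable.mono' (int_exp.const_mul 9) (Gp_meas h hc _) ?_
  rw [ae_restrict_iff' measurableSet_Ioi]
  refine ae_of_all _ (fun u hu => ?_)
  rw [Real.norm_eq_abs]
  refine (Gp_bd h R u hu (h0 u) (hR0 u) (hb u hu)).trans ?_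
  have := Real.exp_pos (-(3 * u / 2))
  nlinarith [hR1 u]

lemma Pp_int (k S : ℝ) (h : ℝ → ℝ) (hc : Continuous h) (hk : 0 ≤ k) (hS : 0 < S)
    (hS1 : S ≤ 1) (h0 : ∀ u, 0 ≤ h u) (hb : ∀ u, 0 < u → h u ≤ 3) :
    IntegrableOn (Pp k S h) (Set.Ioi 0) := by
  refine Integrable.mono' (int_exp.const_mul (6 * k / S ^ 2)) (Pp_meas k S h hc _) ?_
  rw [ae_restrict_iff' measurableSet_Ioi]
  refine ae_of_all _ (fun u hu => ?_)
  rw [Real.norm_eq_abs]
  exact Pp_bd k S h u hk hS hS1 (h0 u) (hb u hu)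

lemma Qp_int (k S : ℝ) (h : ℝ → ℝ) (hc : Continuous h) (hk : 0 ≤ k) (hS : 0 < S)
    (hS1 : S ≤ 1) (h0 : ∀ u, 0 ≤ h u) (hb : ∀ u, 0 < u → h u ≤ 3) :
    IntegrableOn (Qp k S h) (Set.Ioi 0) := by
  refine Integrable.mono' (int_exp.const_mul (6 * k / S ^ 2)) (Qp_meas k S h hc _) ?_
  rw [ae_restrict_iff' measurableSet_Ioi]
  refine ae_of_all _ (fun u hu => ?_)
  rw [Real.norm_eq_abs]
  exact Qp_bd k S h u hu hk hS hS1 (h0 u) (hb u hu)

end core

/-! ## limits -/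

lemma G_lim {θ : ℝ} (hC1 : Real.cos (3 * θ / 2) < 1) (hC : 0 < Real.cos (3 * θ / 2))
    (h : ℕ → ℝ → ℝ) (hc : ∀ n, Continuous (h n)) (h0 : ∀ n u, 0 ≤ h n u)
    (hb : ∀ n u, 0 < u → h n u ≤ 3 * (Real.tanh (3 * u / 4) ^ 2 * Rr θ u ^ (2 * (n + 1)))) :
    Tendsto (fun n : ℕ => ∫ u in Set.Ioi (0 : ℝ), Gp (h n) u) atTop (𝓝 0) := by
  have hz : (∫ u in Set.Ioi (0 : ℝ), (0 : ℝ)) = 0 := by simp
  suffices hsuff : ∀ z : ℝ, z = (∫ u in Set.Ioi (0 : ℝ), (0 : ℝ)) →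
      Tendsto _ atTop (𝓝 z) from hsuff 0 hz.symm
  intro z hzz
  rw [hzz]
  apply tendsto_integral_of_dominated_convergence (fun u => 9 * Real.exp (-(3 * u / 2)))
  · intro n; exact Gp_meas (h n) (hc n) _
  · exact int_exp.const_mul 9
  · intro n
    rw [ae_restrict_iff' measurableSet_Ioi]
    refine ae_of_all _ (fun u hu => ?_)
    rw [Real.norm_eq_abs]
    have hp := Rr_pos hC1 hC u
    refine (Gp_bd (h n) (fun u => Rr θ u ^ (2 * (n + 1))) u hu (h0 n u)
      (pow_nonneg hp.le _) (hb n u hu)).trans ?_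
    have h1 : Rr θ u ^ (2 * (n + 1)) ≤ 1 := pow_le_one₀ hp.le (Rr_lt hC u).le
    have := Real.exp_pos (-(3 * u / 2))
    show 9 * Real.exp (-(3 * u / 2)) * Rr θ u ^ (2 * (n + 1)) ≤ 9 * Real.exp (-(3 * u / 2))
    nlinarith
  · rw [ae_restrict_iff' measurableSet_Ioi]
    refine ae_of_all _ (fun u hu => ?_)
    have hp := Rr_pos hC1 hC u
    have hsq : Rr θ u ^ 2 < 1 := by nlinarith [Rr_lt hC u]
    have hl : Tendsto (fun n : ℕ => 9 * Real.exp (-(3 * u / 2)) * (Rr θ u ^ 2) ^ (n + 1)) atTop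
        (𝓝 0) := by
      have h1 := (tendsto_pow_atTop_nhds_zero_of_lt_one (sq_nonneg (Rr θ u)) hsq).comp
        (tendsto_add_atTop_nat 1)
      have h2 := h1.const_mul (9 * Real.exp (-(3 * u / 2)))
      rw [mul_zero] at h2
      exact h2
    refine squeeze_zero_norm (fun n => ?_) hl
    rw [Real.norm_eq_abs, ← pow_mul]
    exact Gp_bd (h n) (fun u => Rr θ u ^ (2 * (n + 1))) u hu (h0 n u)
      (pow_nonneg hp.le _) (hb n u hu)

lemma F_lim {θ S : ℝ} (hS : 0 < S) (hS1 : S ≤ 1)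
    (hC1 : Real.cos (3 * θ / 2) < 1) (hC : 0 < Real.cos (3 * θ / 2))
    (h : ℕ → ℝ → ℝ) (hc : ∀ n, Continuous (h n)) (h0 : ∀ n u, 0 ≤ h n u)
    (hb : ∀ n u, 0 < u → h n u ≤ 3 * (Real.tanh (3 * u / 4) ^ 2 * Rr θ u ^ (2 * (n + 1)))) :
    Tendsto (fun n : ℕ => ∫ u in Set.Ioi (0 : ℝ),
      (Pp (3 * ((n : ℝ) + 1) * Real.cos (3 * θ / 2)) S (h n) u -
        Qp (3 * ((n : ℝ) + 1) * Real.cos (3 * θ / 2)) S (h n) u)) atTop (𝓝 0) := by
  have hz : (∫ u in Set.Ioi (0 : ℝ), (0 : ℝ)) = 0 := by simp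
  suffices hsuff : ∀ z : ℝ, z = (∫ u in Set.Ioi (0 : ℝ), (0 : ℝ)) →
      Tendsto _ atTop (𝓝 z) from hsuff 0 hz.symm
  intro z hzz
  rw [hzz]
  have hk : ∀ n : ℕ, 0 ≤ 3 * ((n : ℝ) + 1) * Real.cos (3 * θ / 2) := fun n => by positivity
  apply tendsto_integral_of_dominated_convergence
    (fun u => 9 / 4 / S ^ 2 * Real.exp (-(3 * u / 2)))
  · intro n
    exact (Pp_meas _ S (h n) (hc n) _).sub (Qp_meas _ S (h n) (hc n) _)
  · exact int_exp.const_mul _
  · intro n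
    rw [ae_restrict_iff' measurableSet_Ioi]
    refine ae_of_all _ (fun u hu => ?_)
    rw [Real.norm_eq_abs]
    have hp := Rr_pos hC1 hC u
    refine (Fp_bd _ S (h n) (fun u => Rr θ u ^ (2 * (n + 1))) u (hk n) hS hS1 (h0 n u)
      (pow_nonneg hp.le _) (hb n u hu)).trans ?_
    show 3 / S ^ 2 * (3 * ((n : ℝ) + 1) * Real.cos (3 * θ / 2) * Rr θ u ^ (2 * (n + 1))) *
      (1 / Real.cosh (3 * u / 2)) ^ 2 * Real.exp (-(3 * u / 2)) ≤
      9 / 4 / S ^ 2 * Real.exp (-(3 * u / 2))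
    apply mul_le_mul_of_nonneg_right _ (Real.exp_pos _).le
    have hR := Rr_pow hC1 hC u n
    have hc1 := Real.one_le_cosh (3 * u / 2)
    generalize Real.cosh (3 * u / 2) = c at hR hc1 ⊢
    have hc0 : 0 < c := by linarith
    calc 3 / S ^ 2 * (3 * ((n : ℝ) + 1) * Real.cos (3 * θ / 2) * Rr θ u ^ (2 * (n + 1))) *
          (1 / c) ^ 2
        = 9 / S ^ 2 * Real.cos (3 * θ / 2) * (1 / c) ^ 2 *
          (((n : ℝ) + 1) * Rr θ u ^ (2 * (n + 1))) := by ring
      _ ≤ 9 / S ^ 2 * Real.cos (3 * θ / 2) * (1 / c) ^ 2 * (c / (4 * Real.cos (3 * θ / 2))) :=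
          mul_le_mul_of_nonneg_left hR (by positivity)
      _ = 9 / 4 / S ^ 2 * (1 / c) := by field_simp
      _ ≤ 9 / 4 / S ^ 2 * 1 := by
          apply mul_le_mul_of_nonneg_left _ (by positivity)
          rw [div_le_one hc0]; exact hc1
      _ = 9 / 4 / S ^ 2 := mul_one _
  · rw [ae_restrict_iff' measurableSet_Ioi]
    refine ae_of_all _ (fun u hu => ?_)
    have hp := Rr_pos hC1 hC u
    have hsq : Rr θ u ^ 2 < 1 := by nlinarith [Rr_lt hC u]
    have hl : Tendsto (fun n : ℕ => (3 / S ^ 2 * (3 * Real.cos (3 * θ / 2)) *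
        (1 / Real.cosh (3 * u / 2)) ^ 2 * Real.exp (-(3 * u / 2))) *
        (((n : ℝ) + 1) * (Rr θ u ^ 2) ^ (n + 1))) atTop (𝓝 0) := by
      have h1 := (tendsto_self_mul_const_pow_of_lt_one (sq_nonneg (Rr θ u)) hsq).comp
        (tendsto_add_atTop_nat 1)
      have h2 := h1.const_mul (3 / S ^ 2 * (3 * Real.cos (3 * θ / 2)) *
        (1 / Real.cosh (3 * u / 2)) ^ 2 * Real.exp (-(3 * u / 2)))
      rw [mul_zero] at h2
      refine h2.congr (fun n => ?_)
      simp only [Function.comp_apply]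
      push_cast
      ring
    refine squeeze_zero_norm (fun n => ?_) hl
    rw [Real.norm_eq_abs, ← pow_mul]
    refine (Fp_bd _ S (h n) (fun u => Rr θ u ^ (2 * (n + 1))) u (hk n) hS hS1 (h0 n u)
      (pow_nonneg hp.le _) (hb n u hu)).trans (le_of_eq ?_)
    ring

/-- assembly for abstract functions -/
lemma assemble {θ S : ℝ} (hS : 0 < S) (hS1 : S < 1)
    (hC1 : Real.cos (3 * θ / 2) < 1) (hC : 0 < Real.cos (3 * θ / 2))
    (hSs : S = Real.sin (3 * θ / 2))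
    (h : ℕ → ℝ → ℝ) (hc : ∀ n, Continuous (h n)) (h0 : ∀ n u, 0 ≤ h n u)
    (hb : ∀ n u, 0 < u → h n u ≤ 3 * (Real.tanh (3 * u / 4) ^ 2 * Rr θ u ^ (2 * (n + 1))))
    (x l : ℕ → ℝ) (hx : ∀ n : ℕ, ((n : ℝ) + 1) * Real.cos (3 * θ / 2) ≤ Real.sinh (x n))
    (hl : ∀ n, l n = Real.log ((Real.cosh (x n) + S) / (Real.cosh (x n) - S))
      - ∫ v in Set.Ioi (0 : ℝ), 3 / (2 * Real.pi) * S * Real.cosh (3 * v / 2) /
        (Real.sinh (3 * v / 2) ^ 2 + S ^ 2) * h n v) :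
    Tendsto (fun n : ℕ => (4 * Real.pi * ((n : ℝ) + 1) *
      Real.arctan (Real.cos (3 * θ / 2) / Real.sinh (x n))
      + 2 * Real.pi * Real.arccos (Real.tanh (x n))
      - ∫ u in Set.Ioi (0 : ℝ), dr (n + 1) θ u * h n u)
    - 2 * Real.pi * Real.cos (3 * θ / 2) / S * (((n : ℝ) + 1) * l n)) atTop (𝓝 0) := by
  have hA := partA (Real.cos (3 * θ / 2)) S x hC hS hS1 hx
  have hB := partB (Real.cos (3 * θ / 2)) x hC hx
  have hG := G_lim hC1 hC h hc h0 hb
  have hF := F_lim hS hS1.le hC1 hC h hc h0 hb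
  have hsum := ((hA.add hB).sub hG).add hF
  rw [add_zero, sub_zero, add_zero] at hsum
  refine hsum.congr (fun n => ?_)
  have hR1 : ∀ u, Rr θ u ^ (2 * (n + 1)) ≤ 1 := fun u =>
    pow_le_one₀ (Rr_pos hC1 hC u).le (Rr_lt hC u).le
  have hR0 : ∀ u, 0 ≤ Rr θ u ^ (2 * (n + 1)) := fun u => pow_nonneg (Rr_pos hC1 hC u).le _
  have hb3 : ∀ u, 0 < u → h n u ≤ 3 := by
    intro u hu
    refine (hb n u hu).trans ?_
    have h1 := tanh_sq_le (3 * u / 4)
    have h2 := hR1 u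
    have h3 : Real.tanh (3 * u / 4) ^ 2 * Rr θ u ^ (2 * (n + 1)) ≤ 1 :=
      mul_le_one₀ h1 (hR0 u) h2
    linarith
  obtain ⟨k, hk⟩ : ∃ k, k = 3 * ((n : ℝ) + 1) * Real.cos (3 * θ / 2) := ⟨_, rfl⟩
  have hk0 : 0 ≤ k := by rw [hk]; positivity
  have iG := Gp_int (h n) (hc n) (fun u => Rr θ u ^ (2 * (n + 1))) (h0 n) hR0 hR1 (hb n)
  have iP := Pp_int k S (h n) (hc n) hk0 hS hS1.le (h0 n) hb3
  have iQ := Qp_int k S (h n) (hc n) hk0 hS hS1.le (h0 n) hb3
  have e1 : (∫ u in Set.Ioi (0 : ℝ), dr (n + 1) θ u * h n u) =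
      (∫ u in Set.Ioi (0 : ℝ), Gp (h n) u) + ∫ u in Set.Ioi (0 : ℝ), Qp k S (h n) u := by
    rw [← integral_add iG iQ]
    congr 1
    ext u
    unfold dr Gp Qp
    rw [hk, hSs]
    push_cast
    ring
  have e2 : 2 * Real.pi * Real.cos (3 * θ / 2) / S * (((n : ℝ) + 1) *
      ∫ v in Set.Ioi (0 : ℝ), 3 / (2 * Real.pi) * S * Real.cosh (3 * v / 2) /
        (Real.sinh (3 * v / 2) ^ 2 + S ^ 2) * h n v) = ∫ u in Set.Ioi (0 : ℝ), Pp k S (h n) u := by
    rw [← integral_const_mul, ← integral_const_mul]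
    congr 1
    ext u
    unfold Pp
    rw [hk]
    have hpi := Real.pi_pos
    field_simp
  have e3 : (∫ u in Set.Ioi (0 : ℝ), (Pp k S (h n) u - Qp k S (h n) u)) =
      (∫ u in Set.Ioi (0 : ℝ), Pp k S (h n) u) - ∫ u in Set.Ioi (0 : ℝ), Qp k S (h n) u :=
    integral_sub iP iQ
  rw [← hk, e3, e1, hl n, mul_sub, mul_sub, e2]
  ring

end Cmp612

theorem cl_cmp (hp : S_pos) (he : S_ev) : S_cmp := by
  intro θ z0 s r lam hT
  have h0 := hT 0
  have hth0 := h0.th0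
  have hth1 := h0.th1
  have hpi := Real.pi_pos
  have hC : 0 < Real.cos (3 * θ / 2) := Real.cos_pos_of_mem_Ioo ⟨by linarith, by linarith⟩
  have hS : 0 < Real.sin (3 * θ / 2) := Real.sin_pos_of_pos_of_lt_pi (by linarith) (by linarith)
  have hsc := Real.sin_sq_add_cos_sq (3 * θ / 2)
  have hC1 : Real.cos (3 * θ / 2) < 1 := by nlinarith
  have hS1 : Real.sin (3 * θ / 2) < 1 := by nlinarith
  have key := Cmp612.assemble (θ := θ) hS hS1 hC1 hC rfl (fun n u => Real.log (1 + r n u ^ 2))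
    (fun n => (he (n + 1) θ (z0 n) (s n) (r n) (lam n) (hT n)).2.1.diff.continuous)
    (fun n u => Real.log_nonneg (by nlinarith [sq_nonneg (r n u)]))
    (fun n u hu => by
      have hTn := hT n
      have h1 : Real.log (1 + r n u ^ 2) ≤ r n u ^ 2 := by
        have := Real.log_le_sub_one_of_pos (by positivity : 0 < 1 + r n u ^ 2)
        linarith
      refine h1.trans ?_
      have h2 := hTn.r_le u hu.le
      have h3 := hTn.r_pos u hu
      have h4 := pow_le_pow_left₀ h3.le h2 2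
      refine h4.trans (le_of_eq ?_)
      rw [mul_pow, mul_pow, Real.sq_sqrt (by norm_num), ← pow_mul, mul_comm (n + 1) 2])
    (fun n => 3 * z0 n / 2) (fun n => -Real.log (lam n))
    (fun n => by
      have := (hp (n + 1) θ (z0 n) (s n) (r n) (lam n) (hT n)).1
      push_cast at this
      exact this)
    (fun n => (hT n).lam_eq)
  exact key

end W96CL
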